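import Pool.Agent.helper99.VN.SpecU

/-!
# Row vn:UND (MP_07c750_an): the total volume of the undetected chains
-/

set_option autoImplicit false

open scoped MatrixGroups ContDiff Topology UpperHalfPlane ComplexConjugate ENNReal
open UpperHalfPlane MeasureTheory Filter Set

namespace Pool.Agent.VN

open Pool.Agent.RS Pool.Agent.VQ
open Pool.Agent.RPQ (Net Cl)

theorem UND_pos (C : ℝ) (A : Prm) (h : 1 ≤ C) (hA : Adm C A) : 0 < A.z ∧ 0 < A.z1 ∧ 0 < A.z2 := by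
  have hC : 0 < C := by linarith
  have h1 : 0 < A.z := lt_of_lt_of_le (mul_pos hC hA.e3) hA.z
  have h2 : 0 < A.z1 := lt_of_lt_of_le (mul_pos hC h1) hA.z1
  exact ⟨h1, h2, lt_of_lt_of_le (mul_pos hC h2) hA.z2⟩

theorem UND_adm (C C1 : ℝ) (A : Prm) (hC : 1 ≤ C) (h : C1 ≤ C) (hA : Adm C A) : Adm C1 A := by
  obtain ⟨h1, h2, h3⟩ := UND_pos C A hC hA
  have hm : (0 : ℝ) ≤ A.m * A.z2 := by positivity
  exact ⟨hA.e3, hA.m, (mul_le_mul_of_nonneg_right h hA.e3.le).trans hA.z, (mul_le_mul_of_nonneg_right h h1.le).trans hA.z1,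
    (mul_le_mul_of_nonneg_right h h2.le).trans hA.z2, (mul_le_mul_of_nonneg_right h hm).trans hA.up, hA.tu⟩

theorem UND_last {n : ℕ} (x z : SL(2, ℝ) × ℝ) (v : Fin n → SL(2, ℝ) × ℝ) : vz x z v (n + 1) = z := by
  simp [vz]

theorem UND_in {n : ℕ} (x z : SL(2, ℝ) × ℝ) (v : Fin n → SL(2, ℝ) × ℝ) (i : Fin n) : vz x z v (i + 1) = v i := by
  simp [vz]

theorem UND_core (hSUMN : SUMN_stmt) {Γ : Subgroup SL(2, ℝ)} (D : Dyn) (A : Prm) (R r r' K t eps : ℝ) {J : ℕ} (χ : Fin J → ℍ → ℝ) (n nc M : ℕ)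
    (x y : SL(2, ℝ) × ℝ) (w : ℕ → SL(2, ℝ) × ℝ) (cl : (ℕ → SL(2, ℝ) × ℝ) → ℕ) (vol : ENNReal)
    (hJP : ∀ w : ℕ → SL(2, ℝ) × ℝ, Ch D A R (n + 1) w → JP D t r (n + 1) w)
    (hrig : ∀ w w' : ℕ → SL(2, ℝ) × ℝ, Ch D A R (n + 1) w → Ch D A R (n + 1) w' → w' 0 = w 0 → w' (n + 1) = w (n + 1) →
      (∀ s : ℝ, 0 ≤ s → s < ((n + 1 : ℕ) : ℝ) * t → (frZ D t w s)⁻¹ * frZ D t w' s ∈ Bo eps) → ∀ j ≤ n + 1, Nb r' (w j) (w' j))
    (hvb : ∀ w : ℕ → SL(2, ℝ) × ℝ, mZ (mW R) n {v | ∀ i : Fin n, Nb r' (w (i + 1)) (v i)} ≤ vol)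
    (hcl : ∀ w' : ℕ → SL(2, ℝ) × ℝ, w' 0 = x → (∃ γ : Γ, w' (n + 1) = γ • y) → JP D t r (n + 1) w' → UndV D χ K t (n + 1) nc w w' → cl w' < M ∧
        ∀ w'' : ℕ → SL(2, ℝ) × ℝ, w'' 0 = x → (∃ γ : Γ, w'' (n + 1) = γ • y) → JP D t r (n + 1) w'' → UndV D χ K t (n + 1) nc w w'' → cl w'' = cl w' →
          w'' (n + 1) = w' (n + 1) ∧ ∀ s : ℝ, 0 ≤ s → s < ((n + 1 : ℕ) : ℝ) * t → (frZ D t w' s)⁻¹ * frZ D t w'' s ∈ Bo eps) :
    ∑' γ : Γ, mZ (mW R) n {v' : Fin n → SL(2, ℝ) × ℝ | Ch D A R (n + 1) (vz x (γ • y) v') ∧ UndV D χ K t (n + 1) nc w (vz x (γ • y) v')} ≤ M * vol := by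
  refine hSUMN (Fin n → SL(2, ℝ) × ℝ) Γ (mZ (mW R) n) M vol
    (fun γ => {v' : Fin n → SL(2, ℝ) × ℝ | Ch D A R (n + 1) (vz x (γ • y) v') ∧ UndV D χ K t (n + 1) nc w (vz x (γ • y) v')})
    (fun γ v' => cl (vz x (γ • y) v')) ?_ ?_ ?_
  · intro γ v hv
    exact (hcl _ rfl ⟨γ, UND_last _ _ _⟩ (hJP _ hv.1) hv.2).1
  · intro γ γ' v v' hv hv' he
    have h := ((hcl _ rfl ⟨γ', UND_last _ _ _⟩ (hJP _ hv'.1) hv'.2).2 _ rfl ⟨γ, UND_last _ _ _⟩ (hJP _ hv.1) hv.2 he).1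
    rw [UND_last, UND_last] at h
    have h1 : ((γ : SL(2, ℝ)) * y.1, y.2) = ((γ' : SL(2, ℝ)) * y.1, y.2) := h
    exact Subtype.ext (mul_right_cancel (Prod.ext_iff.1 h1).1)
  · intro γ c _
    by_cases he : ∃ v₀ : Fin n → SL(2, ℝ) × ℝ, v₀ ∈ {v' : Fin n → SL(2, ℝ) × ℝ | Ch D A R (n + 1) (vz x (γ • y) v') ∧ UndV D χ K t (n + 1) nc w (vz x (γ • y) v')} ∧ cl (vz x (γ • y) v₀) = c
    · obtain ⟨v₀, hv₀, hc₀⟩ := he
      refine le_trans (measure_mono ?_) (hvb (vz x (γ • y) v₀))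
      rintro v ⟨hv, hc⟩
      have h := ((hcl _ rfl ⟨γ, UND_last _ _ _⟩ (hJP _ hv₀.1) hv₀.2).2 _ rfl ⟨γ, UND_last _ _ _⟩ (hJP _ hv.1) hv.2 (hc.trans hc₀.symm)).2
      have h2 := hrig _ _ hv₀.1 hv.1 rfl ((UND_last _ _ _).trans (UND_last _ _ _).symm) h
      intro i
      have h3 := h2 (i + 1) (by omega)
      rw [UND_in x (γ • y) v i] at h3
      exact h3
    · have : {v : Fin n → SL(2, ℝ) × ℝ | v ∈ {v' : Fin n → SL(2, ℝ) × ℝ | Ch D A R (n + 1) (vz x (γ • y) v') ∧ UndV D χ K t (n + 1) nc w (vz x (γ • y) v')} ∧ cl (vz x (γ • y) v) = c} = ∅ := by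
        rw [eq_empty_iff_forall_notMem]
        intro v hv
        exact he ⟨v, hv⟩
      have h0 : mZ (mW R) n {v : Fin n → SL(2, ℝ) × ℝ | v ∈ {v' : Fin n → SL(2, ℝ) × ℝ | Ch D A R (n + 1) (vz x (γ • y) v') ∧ UndV D χ K t (n + 1) nc w (vz x (γ • y) v')} ∧ cl (vz x (γ • y) v) = c} = 0 := by
        rw [this]
        exact measure_empty
      exact le_trans (le_of_eq h0) bot_le

theorem UND_proof (hCLSN : CLSN_stmt) (hVBXN : VBXN_stmt) (hSUMN : SUMN_stmt) (hI6N : I6N_stmt) (hRIGN : RIGN_stmt) (hPARV : VQ.PARV_stmt) : UND_stmt := by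
  intro Γ κ k B hΓ hk
  obtain ⟨Cr, eps, hCr, heps, hrig⟩ := hRIGN Γ k B hΓ hk
  obtain ⟨C', ρ10, hC', hρ10, hρ10', hcls⟩ := hCLSN Γ κ k B hΓ hk eps heps
  obtain ⟨C6, hC6, hI6⟩ := hI6N Γ k B hΓ hk
  obtain ⟨CV, hCV, hvb⟩ := hVBXN
  obtain ⟨C, hCdef⟩ : ∃ C : ℝ, C = 4 * Cr + C6 + C' + CV + 20 := ⟨_, rfl⟩
  have hC1 : 1 ≤ C := by linarith
  refine ⟨C, hC1, fun A N M1 hA hN hM1 => ?_⟩
  have hAr : Adm Cr A := UND_adm C Cr A hC1 (by linarith) hA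
  have hA6 : Adm C6 A := UND_adm C C6 A hC1 (by linarith) hA
  obtain ⟨hz0, hz10, hz2⟩ := UND_pos C A hC1 hA
  have hm1 : (1 : ℝ) ≤ A.m := by exact_mod_cast hA.m
  have hm0 : (0 : ℝ) < A.m := by linarith
  have hc : 0 < (A.m : ℝ) * A.e3 := mul_pos hm0 hA.e3
  obtain ⟨a₀, R0p, ha₀, hR0p, hpar⟩ := hPARV N M1 C' ρ10 (A.m * A.e3) hN hM1 hC' hρ10 hc
  obtain ⟨R6, hR61, hR6⟩ := hI6 A hA6
  have hrig' : ∀ m : ℕ, ∃ Rm : ℝ, 1 ≤ Rm ∧ (1 ≤ m → ∀ (R : ℝ) (D : Dyn), Rm ≤ R → OKN Γ k B D → ∀ w w' : ℕ → SL(2, ℝ) × ℝ, Ch D A R m w → Ch D A R m w' → w' 0 = w 0 → w' m = w m →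
    (∀ s : ℝ, 0 ≤ s → s < m * A.tu R → (frZ D (A.tu R) w s)⁻¹ * frZ D (A.tu R) w' s ∈ Bo eps) → ∀ j ≤ m, Nb (R ^ (-(1 / 2) + Cr * A.z2)) (w j) (w' j)) := by
    intro m
    by_cases hm : 1 ≤ m
    · obtain ⟨Rm, h1, h2⟩ := hrig A m hAr hm
      exact ⟨Rm, h1, fun _ => h2⟩
    · exact ⟨1, le_rfl, fun h => absurd h hm⟩
  choose Rr hRr1 hRr using hrig'
  have f4 : ∀ᶠ R : ℝ in atTop, 2 ≤ R ^ (1 / 20 : ℝ) := (tendsto_rpow_atTop (by norm_num)).eventually (eventually_ge_atTop 2)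
  have f5 : ∀ᶠ R : ℝ in atTop, R ^ (-(1 / 4) : ℝ) ≤ 1 / 4 := (tendsto_rpow_neg_atTop (by norm_num)).eventually (eventually_le_nhds (by norm_num))
  have f6 : ∀ᶠ R : ℝ in atTop, CV ≤ R ^ A.z2 := (tendsto_rpow_atTop hz2).eventually (eventually_ge_atTop CV)
  have f7 : ∀ᶠ R : ℝ in atTop, C' ≤ Real.log R := Real.tendsto_log_atTop.eventually (eventually_ge_atTop C')
  obtain ⟨R1, hR1⟩ := Filter.eventually_atTop.mp (f4.and (f5.and (f6.and f7)))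
  refine ⟨a₀ + 1, max (max R0p R6) (max R1 (∑ m ∈ Finset.range (N + 1), Rr m)), by linarith, hR0p.trans ((le_max_left _ _).trans (le_max_left _ _)), ?_⟩
  intro R ρ K C0 J p χ D hR hρ hρ' hK hNet hOK
  have hRp : R0p ≤ R := ((le_max_left _ _).trans (le_max_left _ _)).trans hR
  have hRR6 : R6 ≤ R := ((le_max_right _ _).trans (le_max_left _ _)).trans hR
  obtain ⟨g4, g5, g6, g7⟩ := hR1 R (((le_max_left _ _).trans (le_max_right _ _)).trans hR)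
  have hRsum : ∀ m ≤ N, Rr m ≤ R := by
    intro m hm
    have h1 : Rr m ≤ ∑ m ∈ Finset.range (N + 1), Rr m :=
      Finset.single_le_sum (f := Rr) (fun i _ => by linarith [hRr1 i]) (Finset.mem_range.2 (by omega))
    exact h1.trans (((le_max_right _ _).trans (le_max_right _ _)).trans hR)
  have hR1' : 1 ≤ R := by linarith
  have hR0 : 0 < R := by linarith
  have hL : 1 ≤ Real.log R := hC'.trans g7
  have hL0 : 0 < Real.log R := by linarith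
  have htu : A.tu R = A.m * A.e3 * Real.log R := by
    unfold Prm.tu Prm.sg
    ring
  have ht2 : A.tu R ≤ Real.log R := by
    rw [htu]
    have := hA.tu
    nlinarith
  have hρ2 : C' * ρ / 32 ≤ (Real.log R) ^ (-(2 * a₀ + 2)) := by
    have e1 : (Real.log R) ^ (-(2 * (a₀ + 1) + 2)) = (Real.log R) ^ (-(2 * a₀ + 2)) * (Real.log R) ^ (-(2 : ℝ)) := by
      rw [← Real.rpow_add hL0]
      congr 1
      ring
    have e2 : (Real.log R) ^ (-(2 : ℝ)) * Real.log R ≤ 1 := by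
      nth_rewrite 2 [← Real.rpow_one (Real.log R)]
      rw [← Real.rpow_add hL0]
      exact Real.rpow_le_one_of_one_le_of_nonpos hL (by norm_num)
    have e3 : 0 < (Real.log R) ^ (-(2 * a₀ + 2)) := Real.rpow_pos_of_pos hL0 _
    have e4 : 0 < (Real.log R) ^ (-(2 : ℝ)) := Real.rpow_pos_of_pos hL0 _
    rw [e1] at hρ'
    have e5 : C' * ρ ≤ Real.log R * ((Real.log R) ^ (-(2 * a₀ + 2)) * (Real.log R) ^ (-(2 : ℝ))) :=
      mul_le_mul g7 hρ' hρ.le hL0.le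
    have e6 : Real.log R * ((Real.log R) ^ (-(2 * a₀ + 2)) * (Real.log R) ^ (-(2 : ℝ))) = (Real.log R) ^ (-(2 * a₀ + 2)) * ((Real.log R) ^ (-(2 : ℝ)) * Real.log R) := by ring
    have e7 : (Real.log R) ^ (-(2 * a₀ + 2)) * ((Real.log R) ^ (-(2 : ℝ)) * Real.log R) ≤ (Real.log R) ^ (-(2 * a₀ + 2)) * 1 :=
      mul_le_mul_of_nonneg_left e2 e3.le
    have e8 : 0 < C' * ρ := mul_pos (by linarith) hρ
    linarith
  obtain ⟨nc, hnc, hr1, hρρ, hlog, ht1, hpar2⟩ := hpar R (C' * ρ / 32) (A.tu R) hRp (by positivity) hρ2 (le_of_eq htu.symm) ht2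
  refine ⟨nc, hnc, ?_⟩
  intro N' hN' hN'N x y w hw0 hw
  obtain ⟨n, rfl⟩ : ∃ n, N' = n + 1 := ⟨N' - 1, by omega⟩
  have hr0 : 0 < R ^ (-(1 / 5) : ℝ) := Real.rpow_pos_of_pos hR0 _
  have hE : 2 * R ^ (-(1 / 4) : ℝ) ≤ R ^ (-(1 / 5) : ℝ) := by
    have e1 : R ^ (-(1 / 5) : ℝ) = R ^ (1 / 20 : ℝ) * R ^ (-(1 / 4) : ℝ) := by
      rw [← Real.rpow_add hR0]
      norm_num
    rw [e1]
    exact mul_le_mul_of_nonneg_right g4 (Real.rpow_pos_of_pos hR0 _).le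
  have hWi : ∀ E : ℝ, E ∈ Wi 2 R → |E| ≤ R ^ (-(1 / 5) : ℝ) := fun E hE' => (abs_le.2 ⟨hE'.1, hE'.2⟩).trans hE
  have hJP : ∀ w : ℕ → SL(2, ℝ) × ℝ, Ch D A R (n + 1) w → JP D (A.tu R) (R ^ (-(1 / 5) : ℝ)) (n + 1) w := by
    intro w hw j hj
    obtain ⟨h1, h2, h3, _⟩ := hR6 R D hRR6 hOK _ _ (hw j hj)
    exact ⟨h1, hWi _ h2, hWi _ h3⟩
  obtain ⟨hp1, hp2⟩ := hpar2 (n + 1) hN' hN'N
  have hp1' : nc + C' * (((n + 1 : ℕ) : ℝ) * A.tu R + 1) / (Real.log R) ^ (-a₀) ≤ (Real.log R) ^ (-a₀) / (C' * ρ) := by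
    have : 32 * (C' * ρ / 32) = C' * ρ := by ring
    rw [this] at hp1
    exact hp1
  have hKK : C' / ρ ≤ |K| := (div_le_div_of_nonneg_right (by linarith) hρ.le).trans hK
  obtain ⟨M, cl, hM, hcl⟩ := hcls C0 ρ ((Real.log R) ^ (-a₀)) (R ^ (-(1 / 5) : ℝ)) K (A.tu R) J p χ (n + 1) nc D x y w hOK hN' hρ hr0 hr1 hρρ ht1 hlog hKK hp1' hNet (hJP w hw)
  have hr'0 : 0 < R ^ (-(1 / 2) + Cr * A.z2) := Real.rpow_pos_of_pos hR0 _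
  have hCz : Cr * A.z2 ≤ 1 / 4 := by
    have h1 := hA.up
    have h2 : A.z2 ≤ A.m * A.z2 := le_mul_of_one_le_left hz2.le hm1
    have h3 : 4 * Cr * (A.m * A.z2) ≤ C * (A.m * A.z2) := mul_le_mul_of_nonneg_right (by linarith) (by positivity)
    have h4 : 4 * Cr * A.z2 ≤ 4 * Cr * (A.m * A.z2) := mul_le_mul_of_nonneg_left h2 (by linarith)
    linarith
  have hr'4 : R ^ (-(1 / 2) + Cr * A.z2) ≤ 1 / 4 := by
    refine le_trans (Real.rpow_le_rpow_of_exponent_le hR1' ?_) g5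
    linarith
  have hmain := UND_core hSUMN D A R (R ^ (-(1 / 5) : ℝ)) (R ^ (-(1 / 2) + Cr * A.z2)) K (A.tu R) eps χ n nc M x y w cl
    (ENNReal.ofReal ((CV * (R ^ (-(1 / 2) + Cr * A.z2)) ^ 4) ^ n)) hJP
    (fun w w' h1 h2 h3 h4 h5 => hRr (n + 1) hN' R D (hRsum _ hN'N) hOK w w' h1 h2 h3 h4 h5)
    (fun w => hvb R _ n w hr'0 hr'4) hcl
  refine le_trans hmain ?_
  have hMr : (M : ℝ) ≤ R ^ (1 / 8 : ℝ) := hM.trans hp2
  have hvol : CV * (R ^ (-(1 / 2) + Cr * A.z2)) ^ 4 ≤ R ^ (-2 + C * A.z2) := by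
    have e1 : (R ^ (-(1 / 2) + Cr * A.z2)) ^ 4 = R ^ (-2 + 4 * Cr * A.z2) := by
      rw [← Real.rpow_natCast, ← Real.rpow_mul hR0.le]
      congr 1
      push_cast
      ring
    rw [e1]
    have e2 : CV * R ^ (-2 + 4 * Cr * A.z2) ≤ R ^ A.z2 * R ^ (-2 + 4 * Cr * A.z2) :=
      mul_le_mul_of_nonneg_right g6 (Real.rpow_pos_of_pos hR0 _).le
    refine e2.trans ?_
    rw [← Real.rpow_add hR0]
    refine Real.rpow_le_rpow_of_exponent_le hR1' ?_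
    have e3 : (4 * Cr + 1) * A.z2 ≤ C * A.z2 := mul_le_mul_of_nonneg_right (by linarith) hz2.le
    linarith
  have hvol0 : 0 ≤ CV * (R ^ (-(1 / 2) + Cr * A.z2)) ^ 4 := by positivity
  have hMe : (M : ENNReal) = ENNReal.ofReal (M : ℝ) := (ENNReal.ofReal_natCast M).symm
  rw [hMe, ← ENNReal.ofReal_mul (Nat.cast_nonneg M)]
  refine ENNReal.ofReal_le_ofReal ?_
  exact mul_le_mul hMr (pow_le_pow_left₀ hvol0 hvol n) (pow_nonneg hvol0 n) (Real.rpow_pos_of_pos hR0 _).le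

end Pool.Agent.VN
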